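import Pool.Agent.W644.CY.Cyc3

/-!
# The values of the Chern characters of `K_m(K[G])` are cyclotomic

Let `K` be a field of characteristic zero and `G` any group. The Chern character
`K_m(K[G]) → HC_m(K[G])` has for every element `P` of `G` a component in the homology group
`H_m(C(P)/⟨P⟩; K)`. The K-theoretic Farrell-Jones conjecture describes `K_m(K[G])`, rationally and
as far as this component sees it, by the groups `H_m(C(C); ℚ) ⊗ K_0(K[C])`, `C` a finite cyclic
subgroup; hence it predicts that the component lies in `H_m(C(P)/⟨P⟩; ℚ(ζ_k))` if `P` has finite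
order `k`, and that the Galois automorphism `ζ_k ↦ ζ_k ^ a` carries the component of `P` to the
component of `P ^ a`. In particular the component of `P = 1` is in `H_m(G; ℚ)`. For `m = 0` these
are theorems of Zalesskii and Bass. We prove the predictions for all `m ≥ 1` and all groups `G`, up
to homology classes which are invisible to cocycles with values in `ℤ`.
-/

set_option autoImplicit false

namespace Pool.Agent.Results.MP_6374fb_al.CyclotomicChernCharacters

open Pool.Agent.W644.CY Polynomial

universe u v w x y

/-- Let `K` be a field of characteristic zero, `G` a group and `c` a class cocycle of degree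
`n + 1 ≥ 1` on `G` with values in `ℤ` (a family of alternating homogeneous cocycles `c P` of degree
`n + 1` on `G`, `P ∈ G`, invariant under multiplication of each variable by `P`, and equivariant
under conjugation). Let `θ` be a homomorphism (which need not preserve `1`) from a group `𝒢` to the
`r × r` matrices over `K[G]`, for example the inclusion of the group of invertible matrices, and let
`z` be a cycle of degree `n + 1` of Connes' complex of `ℤ[𝒢]`, component of the conjugacy class of
`1`; we write `⟨c, θ z⟩` for the value of `c` on the image of `z`. For `m ≥ 1` and `b` prime to `m`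
let `c ^ (b)` be the class cocycle given by `P ↦ c (P ^ b)` for `P ^ m = 1` and by `0` for all
other `P`.

(1) Let `m ≥ 1` and let `ζ` be a primitive `m`-th root of unity in some extension field `L` of `K`.
There is a polynomial `f` with rational coefficients such that
`⟨c ^ (b), θ z⟩ = f (ζ ^ a)` whenever `a b ≡ 1` modulo `m`.
In particular `⟨c ^ (1), θ z⟩` is in `ℚ(ζ)`, and its image under the automorphism `ζ ↦ ζ ^ a` of
`ℚ(ζ)` is `⟨c ^ (b), θ z⟩`.
(2) If `c P = 0` for all `P ≠ 1` then `⟨c, θ z⟩` is a rational number.
(3) If `c P = 0` for all `P` of infinite order then `⟨c, θ z⟩ = ⟨c ^ (1), θ z⟩` for some `m ≥ 1`;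
so (1) applies to `⟨c, θ z⟩`. -/
theorem result (K : Type u) [Field K] [CharZero K] (G : Type v) [Group G] (r : Type w) [Fintype r]
    [DecidableEq r] (n : ℕ) (c : G → (Fin (n + 2) → G) → ℤ) (hc : IsClassCocycle c)
    (𝒢 : Type y) [Group 𝒢] (θ : 𝒢 →ₙ* Matrix r r (MonoidAlgebra K G))
    (z : (Fin (n + 2) → 𝒢) →₀ ℤ) (hz : IsCyclicCycle z) :
    (∀ m : ℕ, 0 < m → ∀ (L : Type x) [Field L] [CharZero L] [Algebra K L] (ζ : L),
      IsPrimitiveRoot ζ m → ∃ f : ℚ[X], ∀ a b : ℕ, a * b ≡ 1 [MOD m] →
        algebraMap K L (chern θ (fun P y => (powerClass m b c P y : K)) z) = aeval (ζ ^ a) f) ∧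
    ((∀ P y, P ≠ 1 → c P y = 0) → ∃ q : ℚ, chern θ (fun P y => (c P y : K)) z = q) ∧
    ((∀ P y, ¬ IsOfFinOrder P → c P y = 0) → ∃ m : ℕ, 0 < m ∧
      chern θ (fun P y => (c P y : K)) z =
        chern θ (fun P y => (powerClass m 1 c P y : K)) z) :=
  ⟨fun m hm L _ _ _ ζ hζ => cyclotomic_general θ m hm c hc z hz L ζ hζ,
    fun h1 => rational_at_one θ c hc h1 z hz,
    fun hfin => finite_order_cyclotomic θ c hfin z⟩

end Pool.Agent.Results.MP_6374fb_al.CyclotomicChernCharacters
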